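import Pool.Agent.H24.Lib.R_seed8.H112R2.FinalGap
import Pool.Agent.H24.Lib.seeded_ab47071d.TH3.AP.Every
import Pool.Agent.H24.Lib.R_seed8.H217R3.AK.Bsg
set_option autoImplicit false

/-! Progression-free subsets of sets of small doubling. -/

namespace H24.DB

open Finset Pool.Agent.H617R3.AP Pool.Agent.TH3.AP
open scoped Pointwise

/-- `S` contains no progression `a, a + d, ..., a + (k - 1) d` with `d ≠ 0`. -/
def APF {G : Type*} [AddCommGroup G] (k : ℕ) (S : Finset G) : Prop :=
  ∀ a d : G, d ≠ 0 → ¬ ∀ i < k, a + i • d ∈ S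

theorem APF.mono {G : Type*} [AddCommGroup G] {k : ℕ} {S T : Finset G} (h : APF k S) (hT : T ⊆ S) :
    APF k T := fun a d hd h2 => h a d hd fun i hi => hT (h2 i hi)

theorem lin_group {G : Type*} [AddCommGroup G] {k : ℕ} (s : ℕ → G)
    (h : ∀ i, i + 2 < k → s i + s (i + 2) = s (i + 1) + s (i + 1)) :
    ∀ i < k, s i = s 0 + i • (s 1 - s 0) := by
  have key : ∀ i, i + 1 < k → s i = s 0 + i • (s 1 - s 0) ∧
      s (i + 1) = s 0 + (i + 1) • (s 1 - s 0) := by
    intro i
    induction i with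
    | zero => intro _; constructor <;> simp
    | succ i ih =>
      intro hi
      obtain ⟨h1, h2⟩ := ih (by omega)
      refine ⟨h2, ?_⟩
      have h3 := h i hi
      have h4 : s (i + 2) = s (i + 1) + s (i + 1) - s i := by
        rw [← h3]; abel
      rw [show i + 1 + 1 = i + 2 from rfl, h4, h2, h1]
      simp only [add_smul, one_smul]
      abel
  intro i hi
  rcases Nat.eq_zero_or_pos i with rfl | hi0
  · simp
  · have := (key (i - 1) (by omega)).2
    rwa [Nat.sub_add_cancel hi0] at this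

/-- the weights of the mixed radix system with bases `b` -/
def wt {d : ℕ} (b : Fin d → ℕ) (i : Fin d) : ℕ := ∏ j : Fin i, b (Fin.castLE i.is_lt.le j)

/-- the number with digits `x` -/
def lam {d : ℕ} (b : Fin d → ℕ) (x : Fin d → ℕ) : ℕ := ∑ i, x i * wt b i

theorem lam_eq {d : ℕ} (b : Fin d → ℕ) (x : Fin d → ℕ) (hx : ∀ i, x i < b i) :
    lam b x = (finPiFinEquiv (fun i => (⟨x i, hx i⟩ : Fin (b i))) : ℕ) := by
  rw [finPiFinEquiv_apply]
  rfl

theorem lam_inj {d : ℕ} (b : Fin d → ℕ) {x y : Fin d → ℕ} (hx : ∀ i, x i < b i)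
    (hy : ∀ i, y i < b i) (h : lam b x = lam b y) : x = y := by
  rw [lam_eq b x hx, lam_eq b y hy] at h
  have h1 := finPiFinEquiv.injective (Fin.val_injective h)
  ext i
  have := congrFun h1 i
  exact congrArg Fin.val this

theorem lam_lt {d : ℕ} (b : Fin d → ℕ) (x : Fin d → ℕ) (hx : ∀ i, x i < b i) :
    lam b x < ∏ i, b i := by
  rw [lam_eq b x hx]
  exact (finPiFinEquiv (fun i => (⟨x i, hx i⟩ : Fin (b i)))).is_lt

theorem lam_add {d : ℕ} (b : Fin d → ℕ) (x y : Fin d → ℕ) :
    lam b (x + y) = lam b x + lam b y := by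
  unfold lam
  rw [← Finset.sum_add_distrib]
  exact Finset.sum_congr rfl fun i _ => by rw [Pi.add_apply, add_mul]

/-- a progression-free set in a generalised progression is no larger than one in an interval -/
theorem gap_le {G : Type*} [AddCommGroup G] [DecidableEq G] {k : ℕ} (hk : 3 ≤ k) {d : ℕ}
    (v : Fin d → G) (N : Fin d → ℕ) (t : G) (S : Finset G) (hS : APF k S)
    (hcov : ∀ s ∈ S, ∃ n : Fin d → ℕ, (∀ i, n i < N i) ∧ s = t + ∑ i, n i • v i) :
    S.card ≤ r k (∏ i, (2 * N i)) := by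
  classical
  have hcov' : ∀ s : G, ∃ n : Fin d → ℕ, s ∈ S → (∀ i, n i < N i) ∧ s = t + ∑ i, n i • v i := by
    intro s
    by_cases hs : s ∈ S
    · obtain ⟨n, hn⟩ := hcov s hs
      exact ⟨n, fun _ => hn⟩
    · exact ⟨0, fun h => absurd h hs⟩
  choose n hn using hcov'
  set b : Fin d → ℕ := fun i => 2 * N i with hb
  have hnb : ∀ s ∈ S, ∀ i, n s i < b i := by
    intro s hs i
    have := (hn s hs).1 i
    simp only [hb]
    omega
  set f : G → ℕ := fun s => lam b (n s) + 1 with hf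
  have hinj : ∀ s ∈ S, ∀ s' ∈ S, f s = f s' → s = s' := by
    intro s hs s' hs' h
    have h1 : n s = n s' := lam_inj b (hnb s hs) (hnb s' hs') (by simpa [hf] using h)
    rw [(hn s hs).2, (hn s' hs').2, h1]
  have hcard : (S.image f).card = S.card := Finset.card_image_of_injOn fun s hs s' hs' h =>
    hinj s hs s' hs' h
  rw [← hcard]
  refine card_le_r ?_ ?_
  · intro m hm
    obtain ⟨s, hs, rfl⟩ := Finset.mem_image.1 hm
    rw [Finset.mem_Icc]
    have := lam_lt b (n s) (hnb s hs)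
    exact ⟨Nat.succ_le_succ (Nat.zero_le _), this⟩
  · intro a D hD hap
    have hap' : ∀ i : ℕ, ∃ s : G, i < k → s ∈ S ∧ f s = a + i * D := by
      intro i
      by_cases hi : i < k
      · obtain ⟨s, hs, hs'⟩ := Finset.mem_image.1 (hap i hi)
        exact ⟨s, fun _ => ⟨hs, hs'⟩⟩
      · exact ⟨0, fun h => absurd h hi⟩
    choose s hs using hap'
    have hlin : ∀ i, i + 2 < k → s i + s (i + 2) = s (i + 1) + s (i + 1) := by
      intro i hi
      obtain ⟨h0, e0⟩ := hs i (by omega)
      obtain ⟨h1, e1⟩ := hs (i + 1) (by omega)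
      obtain ⟨h2, e2⟩ := hs (i + 2) (by omega)
      simp only [hf] at e0 e1 e2
      have h3 : lam b (n (s i) + n (s (i + 2))) = lam b (n (s (i + 1)) + n (s (i + 1))) := by
        rw [lam_add, lam_add]
        have e3 : (i + 2) * D + i * D = 2 * ((i + 1) * D) := by ring
        omega
      have h4 := lam_inj b (x := n (s i) + n (s (i + 2))) (y := n (s (i + 1)) + n (s (i + 1)))
        (by
          intro j
          have := (hn _ h0).1 j
          have := (hn _ h2).1 j
          simp only [hb, Pi.add_apply]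
          omega)
        (by
          intro j
          have := (hn _ h1).1 j
          simp only [hb, Pi.add_apply]
          omega) h3
      have h5 : ∀ x y : Fin d → ℕ, (t + ∑ j, x j • v j) + (t + ∑ j, y j • v j) =
          t + t + ∑ j, (x + y) j • v j := by
        intro x y
        simp only [Pi.add_apply, add_smul, Finset.sum_add_distrib]
        abel
      rw [(hn _ h0).2, (hn _ h2).2, (hn _ h1).2, h5, h5, h4]
    have h6 := lin_group (k := k) s hlin
    have hne : s 1 - s 0 ≠ 0 := by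
      intro h
      have h7 : s 1 = s 0 := sub_eq_zero.1 h
      have e0 := (hs 0 (by omega)).2
      have e1 := (hs 1 (by omega)).2
      rw [h7] at e1
      omega
    refine hS (s 0) (s 1 - s 0) hne fun i hi => ?_
    rw [← h6 i hi]
    exact (hs i hi).1

/-- **Progression-free subsets of sets of small doubling.** -/
theorem rel {G : Type*} [AddCommGroup G] [DecidableEq G]
    (htf : ∀ (n : ℕ) (x : G), n ≠ 0 → n • x = 0 → x = 0) {k : ℕ} (hk : 3 ≤ k) {K : ℝ}
    {A S : Finset G} (hA : A.Nonempty) (hK : ((A + A).card : ℝ) ≤ K * A.card) (hSA : S ⊆ A)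
    (hS : APF k S) :
    (S.card : ℝ) ≤ (2 * K) ^ (18000 * (1 + Real.log (1 + Real.log (2 * K)))) * r k A.card := by
  classical
  have hApos : (0 : ℝ) < A.card := by exact_mod_cast hA.card_pos
  have hK1 : 1 ≤ K := by
    have h1 : (A.card : ℝ) ≤ (A + A).card := by
      exact_mod_cast Finset.card_le_card_add_right hA
    nlinarith
  have hlog : 0 < Real.log (2 * K) := Real.log_pos (by linarith)
  have hlog2 : 0 ≤ Real.log (1 + Real.log (2 * K)) := Real.log_nonneg (by linarith)
  rcases S.eq_empty_or_nonempty with h0 | hSne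
  · rw [h0]
    simp only [Finset.card_empty, Nat.cast_zero]
    positivity
  obtain ⟨d, v, N, T, hd, hN, _, hvol, hT, hcov⟩ := H112.near_pfr_gap' htf hA hK
  obtain ⟨t, ht, hpig⟩ := H112.cover_pigeonhole hSne
    (fun t s => ∃ n : Fin d → ℕ, (∀ i, n i < N i) ∧ s = t + ∑ i, n i • v i)
    (fun s hs => hcov s (hSA hs))
  have h1 := gap_le hk v N t (S.filter fun s => ∃ n : Fin d → ℕ, (∀ i, n i < N i) ∧
    s = t + ∑ i, n i • v i) (hS.mono (Finset.filter_subset _ _))
    (fun s hs => (Finset.mem_filter.1 hs).2)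
  have h2 : ∏ i, (2 * N i) ≤ 2 ^ d * A.card := by
    rw [Finset.prod_mul_distrib, Finset.prod_const, Finset.card_univ, Fintype.card_fin]
    exact Nat.mul_le_mul_left _ hvol
  have h3 : r k (∏ i, (2 * N i)) ≤ 2 ^ d * r k A.card :=
    (r_mono h2).trans (r_mul_le (by omega) _ _)
  have h4 : (S.card : ℝ) ≤ T.card * (2 ^ d * r k A.card) := by
    have h5 : S.card ≤ T.card * (2 ^ d * r k A.card) :=
      hpig.trans (Nat.mul_le_mul_left _ (h1.trans h3))
    exact_mod_cast h5
  have h5 : (2 : ℝ) ^ d ≤ (2 * K) ^ (300 : ℝ) := by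
    have h6 : (2 : ℝ) ^ d = Real.exp (Real.log 2 * d) := by
      rw [Real.exp_mul, Real.exp_log (by norm_num), Real.rpow_natCast]
    rw [h6, Real.rpow_def_of_pos (by linarith)]
    apply Real.exp_le_exp.2
    have h7 : Real.log 2 ≤ 1 := by
      have := Real.log_two_lt_d9; linarith
    have h8 : (0 : ℝ) < Real.log 2 := Real.log_pos (by norm_num)
    have h9 : (0 : ℝ) ≤ d := Nat.cast_nonneg _
    calc Real.log 2 * d ≤ 1 * d := by gcongr
      _ ≤ 300 * Real.log (2 * K) := by linarith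
      _ = Real.log (2 * K) * 300 := by ring
  calc (S.card : ℝ) ≤ T.card * (2 ^ d * r k A.card) := h4
    _ ≤ (2 * K) ^ (17000 * (1 + Real.log (1 + Real.log (2 * K)))) *
        ((2 * K) ^ (300 : ℝ) * r k A.card) := by gcongr
    _ = (2 * K) ^ (17000 * (1 + Real.log (1 + Real.log (2 * K))) + 300) * r k A.card := by
        rw [Real.rpow_add (by linarith)]; ring
    _ ≤ _ := by
        gcongr
        · linarith
        · linarith

/-- **The energy of progression-free sets.** -/
theorem energy {G : Type*} [AddCommGroup G] [DecidableEq G]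
    (htf : ∀ (n : ℕ) (x : G), n ≠ 0 → n • x = 0 → x = 0) {k : ℕ} (hk : 3 ≤ k) {K : ℝ} (hK1 : 1 ≤ K)
    {A : Finset G} (hA : A.Nonempty) (hE : (A.card : ℝ) ^ 3 ≤ K * (A.addEnergy A : ℕ))
    (hAF : APF k A) :
    (A.card : ℝ) ≤ (2 * K) ^ (10000000 * (1 + Real.log (1 + Real.log (2 * K)))) * r k A.card := by
  classical
  obtain ⟨B, hBA, hB, hAB, hBB⟩ := Pool.Agent.H217R3.AK.bsg A hA K (by linarith) hE
  have hBpos : (0 : ℝ) < B.card := by exact_mod_cast hB.card_pos
  have hK0 : 0 < K := by linarith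
  set K₁ : ℝ := 2 ^ 22 * K ^ 10 with hK₁
  have hK₁1 : 1 ≤ K₁ := by
    have h1 : (1 : ℝ) ≤ K ^ 10 := one_le_pow₀ hK1
    rw [hK₁]; nlinarith
  have hsum : ((B + B).card : ℝ) ≤ K₁ ^ 2 * B.card := by
    have h1 := Finset.pluennecke_ruzsa_inequality_nsmul_sub_nsmul_sub hB B 2 0
    have h2 : ((2 • B - 0 • B : Finset G)) = B + B := by
      rw [zero_nsmul, sub_zero, two_nsmul]
    rw [h2] at h1
    have h3 : (((B + B).card : ℚ≥0) : ℝ) ≤
        ((((B - B).card : ℚ≥0) / (B.card : ℚ≥0)) ^ (2 + 0) * (B.card : ℚ≥0) : ℚ≥0) := by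
      exact_mod_cast h1
    push_cast at h3
    refine h3.trans ?_
    have h4 : ((B - B).card : ℝ) / B.card ≤ K₁ := by
      rw [div_le_iff₀ hBpos]; exact hBB
    have h5 : (0 : ℝ) ≤ ((B - B).card : ℝ) / B.card := by positivity
    have h6 : (((B - B).card : ℝ) / B.card) ^ (2 + 0) ≤ K₁ ^ 2 := by
      simpa using pow_le_pow_left₀ h5 h4 2
    exact mul_le_mul_of_nonneg_right h6 hBpos.le
  have h1 := rel htf hk hB hsum (Finset.Subset.refl B) (hAF.mono hBA)
  have h2 : (r k B.card : ℝ) ≤ r k A.card := by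
    exact_mod_cast r_mono (Finset.card_le_card hBA)
  -- numerics
  set κ := Real.log (2 * K) with hκ
  have hκ0 : 0 < κ := Real.log_pos (by linarith)
  have hlog2 : Real.log 2 ≤ κ := by
    rw [hκ]; exact Real.log_le_log (by norm_num) (by linarith)
  have hlogK : Real.log K ≤ κ := by
    rw [hκ]; exact Real.log_le_log (by linarith) (by linarith)
  have hL0 : 0 ≤ Real.log (1 + κ) := Real.log_nonneg (by linarith)
  have hlogK₁ : Real.log (2 * K₁ ^ 2) ≤ 65 * κ := by
    have h3 : 2 * K₁ ^ 2 = 2 ^ 45 * K ^ 20 := by rw [hK₁]; ring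
    rw [h3, Real.log_mul (by positivity) (by positivity), Real.log_pow, Real.log_pow]
    push_cast
    linarith
  have hlogK₁0 : 0 < Real.log (2 * K₁ ^ 2) := Real.log_pos (by nlinarith)
  have h4 : Real.log (1 + Real.log (2 * K₁ ^ 2)) ≤ 5 + Real.log (1 + κ) := by
    have h5 : Real.log (1 + Real.log (2 * K₁ ^ 2)) ≤ Real.log (65 * (1 + κ)) :=
      Real.log_le_log (by linarith) (by linarith)
    have h5' : Real.log (65 * (1 + κ)) = Real.log 65 + Real.log (1 + κ) :=
      Real.log_mul (by norm_num) (by positivity)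
    have h6 : Real.log 65 ≤ 5 := by
      rw [Real.log_le_iff_le_exp (by norm_num)]
      have := Real.exp_one_gt_d9
      calc (65 : ℝ) ≤ (2.7 : ℝ) ^ 5 := by norm_num
        _ ≤ Real.exp 1 ^ 5 := by gcongr; linarith
        _ = Real.exp 5 := by rw [← Real.exp_nat_mul]; norm_num
    linarith
  have h7 : (2 * K₁ ^ 2) ^ (18000 * (1 + Real.log (1 + Real.log (2 * K₁ ^ 2)))) ≤
      Real.exp (7020000 * κ * (1 + Real.log (1 + κ))) := by
    rw [Real.rpow_def_of_pos (by positivity)]
    apply Real.exp_le_exp.2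
    have h8 : 0 ≤ 18000 * (1 + Real.log (1 + Real.log (2 * K₁ ^ 2))) := by
      have := Real.log_nonneg (show (1 : ℝ) ≤ 1 + Real.log (2 * K₁ ^ 2) by linarith)
      positivity
    calc Real.log (2 * K₁ ^ 2) * (18000 * (1 + Real.log (1 + Real.log (2 * K₁ ^ 2))))
        ≤ (65 * κ) * (18000 * (1 + (5 + Real.log (1 + κ)))) := by gcongr
      _ ≤ 7020000 * κ * (1 + Real.log (1 + κ)) := by nlinarith [mul_nonneg hκ0.le hL0]
  have h8 : 8 * K ≤ Real.exp (4 * κ) := by
    have h9 : 8 * K ≤ (2 * K) ^ 4 := by nlinarith [pow_nonneg hK0.le 3, one_le_pow₀ (n := 3) hK1]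
    refine h9.trans (le_of_eq ?_)
    rw [mul_comm 4 κ, Real.exp_mul, hκ, Real.exp_log (by linarith)]
    norm_cast
  have h9 : (2 * K) ^ (10000000 * (1 + Real.log (1 + κ))) =
      Real.exp (10000000 * κ * (1 + Real.log (1 + κ))) := by
    rw [Real.rpow_def_of_pos (by linarith), ← hκ]
    congr 1
    ring
  rw [h9]
  calc (A.card : ℝ) ≤ 8 * K * B.card := hAB
    _ ≤ 8 * K * ((2 * K₁ ^ 2) ^ (18000 * (1 + Real.log (1 + Real.log (2 * K₁ ^ 2)))) *
        r k B.card) := by gcongr
    _ ≤ Real.exp (4 * κ) * (Real.exp (7020000 * κ * (1 + Real.log (1 + κ))) * r k A.card) := by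
        gcongr
    _ = Real.exp (4 * κ + 7020000 * κ * (1 + Real.log (1 + κ))) * r k A.card := by
        rw [Real.exp_add]; ring
    _ ≤ _ := by
        gcongr
        nlinarith [mul_nonneg hκ0.le hL0]

end H24.DB
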