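import Pool.Agent.H24.DB.Rel
set_option autoImplicit false

/-! Minimal doubling and maximal energy of progression-free sets with `n` elements. -/

namespace H24.DB

open Finset Filter Pool.Agent.H617R3.AP Pool.Agent.TH3.AP
open scoped Pointwise Topology

theorem two_pow_le {k : ℕ} (hk : 3 ≤ k) (j : ℕ) : 2 ^ j ≤ r k (3 ^ j) := by
  classical
  have h2 : 2 ≤ r k 2 := by
    have h : APFree k ({1, 2} : Finset ℕ) := by
      intro a d hd h
      have h0 := h 0 (by omega)
      have h2 := h 2 (by omega)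
      simp only [Finset.mem_insert, Finset.mem_singleton] at h0 h2
      omega
    have h3 := card_le_r (N := 2) (by
      intro x hx
      simp only [Finset.mem_insert, Finset.mem_singleton] at hx
      rw [Finset.mem_Icc]; omega) h
    simpa using h3
  have h1 : 1 ≤ r k 1 := by
    have h : APFree k ({1} : Finset ℕ) := by
      intro a d hd h
      have h0 := h 0 (by omega)
      have h2 := h 2 (by omega)
      simp only [Finset.mem_singleton] at h0 h2
      omega
    have h3 := card_le_r (N := 1) (by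
      intro x hx
      simp only [Finset.mem_singleton] at hx
      rw [Finset.mem_Icc]; omega) h
    simpa using h3
  induction j with
  | zero => simpa using h1
  | succ j ih =>
    have h3 := r_mul_r_le hk (K := 2) (by norm_num) (3 ^ j)
    have h4 : (2 * 2 - 1) * 3 ^ j = 3 ^ (j + 1) := by rw [pow_succ]; ring
    rw [h4] at h3
    calc 2 ^ (j + 1) = 2 * 2 ^ j := by rw [pow_succ]; ring
      _ ≤ r k 2 * r k (3 ^ j) := Nat.mul_le_mul h2 ih
      _ ≤ _ := h3

theorem r_pos {k : ℕ} (hk : 3 ≤ k) {n : ℕ} (hn : 1 ≤ n) : 1 ≤ r k n := by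
  have h1 := two_pow_le hk 0
  simp only [pow_zero] at h1
  exact h1.trans (r_mono hn)

theorem exists_level {k : ℕ} (hk : 3 ≤ k) (n : ℕ) : ∃ N, r k N = n := by
  classical
  have hex : ∃ N, n ≤ r k N := ⟨3 ^ n, (Nat.lt_two_pow_self.le).trans (two_pow_le hk n)⟩
  refine ⟨Nat.find hex, le_antisymm ?_ (Nat.find_spec hex)⟩
  rcases Nat.eq_zero_or_pos (Nat.find hex) with h0 | h0
  · rw [h0, r_zero]; exact Nat.zero_le _
  · have h1 := Nat.find_min hex (m := Nat.find hex - 1) (by omega)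
    have h2 := r_add (k := k) (by omega) (Nat.find hex - 1) 1
    have h3 := r_le_self k 1
    rw [Nat.sub_add_cancel h0] at h2
    omega

/-- progression-free sets with small sumset -/
theorem exists_small {k : ℕ} (hk : 3 ≤ k) {n : ℕ} (hn : 1 ≤ n) :
    ∃ A : Finset ℤ, A.card = n ∧ APF k A ∧
      ((A + A).card : ℝ) ≤ 18 * Real.exp 16 * ((n : ℝ) / r k n) ^ 2 * n := by
  classical
  obtain ⟨N, hN⟩ := exists_level hk n
  obtain ⟨A₀, hA₀, hfree, hcard⟩ := exists_opt (k := k) (by omega) N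
  have hnN : n ≤ N := by rw [← hN]; exact r_le_self k N
  have hN1 : 1 ≤ N := hn.trans hnN
  refine ⟨A₀.image (fun m : ℕ => (m : ℤ)), ?_, ?_, ?_⟩
  · rw [Finset.card_image_of_injective _ Nat.cast_injective, hcard, hN]
  · intro a d hd hap
    have hap' : ∀ i : ℕ, ∃ m : ℕ, i < k → m ∈ A₀ ∧ (m : ℤ) = a + i • d := by
      intro i
      by_cases hi : i < k
      · obtain ⟨m, hm, hm'⟩ := Finset.mem_image.1 (hap i hi)
        exact ⟨m, fun _ => ⟨hm, hm'⟩⟩
      · exact ⟨0, fun h => absurd h hi⟩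
    choose m hm using hap'
    refine hd (no_ap_int hk hfree m d (fun i hi => (hm i hi).1) (fun i hi => ?_))
    rw [(hm i hi).2, (hm 0 (by omega)).2]
    simp
  · have hsub : A₀.image (fun m : ℕ => (m : ℤ)) + A₀.image (fun m : ℕ => (m : ℤ)) ⊆
        Finset.Icc (2 : ℤ) (2 * N) := by
      intro z hz
      obtain ⟨x, hx, y, hy, rfl⟩ := Finset.mem_add.1 hz
      obtain ⟨a, ha, rfl⟩ := Finset.mem_image.1 hx
      obtain ⟨b, hb, rfl⟩ := Finset.mem_image.1 hy
      have ha' := Finset.mem_Icc.1 (hA₀ ha)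
      have hb' := Finset.mem_Icc.1 (hA₀ hb)
      rw [Finset.mem_Icc]
      omega
    have h1 : ((A₀.image (fun m : ℕ => (m : ℤ)) + A₀.image (fun m : ℕ => (m : ℤ))).card : ℝ) ≤
        2 * N := by
      have h2 := Finset.card_le_card hsub
      rw [Int.card_Icc] at h2
      have h3 : (2 * (N : ℤ) + 1 - 2).toNat ≤ 2 * N := by omega
      exact_mod_cast h2.trans h3
    refine h1.trans ?_
    have hn' : (0 : ℝ) < n := by exact_mod_cast hn
    have hN' : (0 : ℝ) < N := by exact_mod_cast hN1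
    have hr : (0 : ℝ) < r k n := by exact_mod_cast r_pos hk hn
    have h2 := r_ratio hk hn hnN
    rw [hN] at h2
    set y := Real.log ((N : ℝ) / n) with hy
    have hy0 : 0 ≤ y := Real.log_nonneg (by
      rw [le_div_iff₀ hn', one_mul]; exact_mod_cast hnN)
    have hNy : (N : ℝ) = Real.exp y * n := by
      rw [hy, Real.exp_log (by positivity)]; field_simp
    have h3 : 4 * √y ≤ y / 2 + 8 := by
      have h4 := Real.sq_sqrt hy0
      nlinarith [sq_nonneg (√y - 4)]
    have h5 : (r k n : ℝ) ≤ 3 * Real.exp (8 - y / 2) * n := by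
      calc (r k n : ℝ) ≤ 3 * ((n : ℝ) / N) * Real.exp (4 * √y) * n := h2
        _ = 3 * Real.exp (4 * √y - y) * n := by
            rw [hNy, Real.exp_sub]; field_simp
        _ ≤ _ := mul_le_mul_of_nonneg_right (mul_le_mul_of_nonneg_left
            (Real.exp_le_exp.2 (by linarith)) (by norm_num)) hn'.le
    have h6 : Real.exp y ≤ 9 * Real.exp 16 * ((n : ℝ) / r k n) ^ 2 := by
      have h7 : Real.exp (y / 2) * r k n ≤ 3 * Real.exp 8 * n := by
        calc Real.exp (y / 2) * r k n ≤ Real.exp (y / 2) * (3 * Real.exp (8 - y / 2) * n) := by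
              gcongr
          _ = 3 * (Real.exp (y / 2) * Real.exp (8 - y / 2)) * n := by ring
          _ = 3 * Real.exp 8 * n := by rw [← Real.exp_add]; congr 3; ring
      have h8 : Real.exp (y / 2) ≤ 3 * Real.exp 8 * ((n : ℝ) / r k n) := by
        rw [← mul_div_assoc, le_div_iff₀ hr]
        exact h7
      have h9 : Real.exp y = Real.exp (y / 2) ^ 2 := by
        rw [← Real.exp_nat_mul]; congr 1; push_cast; ring
      have h10 : Real.exp 16 = Real.exp 8 ^ 2 := by
        rw [← Real.exp_nat_mul]; norm_num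
      rw [h9, h10]
      calc Real.exp (y / 2) ^ 2 ≤ (3 * Real.exp 8 * ((n : ℝ) / r k n)) ^ 2 := by gcongr
        _ = _ := by ring
    rw [hNy]
    calc 2 * (Real.exp y * n) ≤ 2 * (9 * Real.exp 16 * ((n : ℝ) / r k n) ^ 2 * n) := by gcongr
      _ = _ := by ring

/-- the smallest size of `A + A`, for `A ⊆ ℤ` with `n` elements and no progression of length `k` -/
noncomputable def minSum (k n : ℕ) : ℕ :=
  sInf {m | ∃ A : Finset ℤ, A.card = n ∧ APF k A ∧ (A + A).card = m}

/-- the largest additive energy of `A ⊆ ℤ` with `n` elements and no progression of length `k` -/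
noncomputable def maxEnergy (k n : ℕ) : ℕ :=
  sSup {m | ∃ A : Finset ℤ, A.card = n ∧ APF k A ∧ A.addEnergy A = m}

theorem energy_le (A : Finset ℤ) : A.addEnergy A ≤ A.card ^ 3 := by
  have h1 := Finset.addEnergy_eq_sum_sq' A A
  have h2 : ∀ s ∈ A + A, ((A ×ˢ A).filter (fun p => p.1 + p.2 = s)).card ≤ A.card := by
    intro s _
    refine Finset.card_le_card_of_injOn (fun p => p.1) ?_ ?_
    · intro p hp
      exact (Finset.mem_product.1 (Finset.mem_filter.1 hp).1).1
    · intro p hp q hq hpq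
      have e1 := (Finset.mem_filter.1 hp).2
      have e2 := (Finset.mem_filter.1 hq).2
      simp only at hpq
      ext
      · exact hpq
      · rw [hpq] at e1; omega
  have h3 : ∑ s ∈ A + A, ((A ×ˢ A).filter (fun p => p.1 + p.2 = s)).card = A.card ^ 2 := by
    have h1 := Finset.card_eq_sum_card_fiberwise (f := fun p : ℤ × ℤ => p.1 + p.2)
      (s := A ×ˢ A) (t := A + A) (fun p hp => by
        rw [mem_coe, mem_product] at hp
        exact add_mem_add hp.1 hp.2)
    rw [Finset.card_product] at h1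
    rw [← h1]; ring
  rw [h1]
  calc ∑ s ∈ A + A, ((A ×ˢ A).filter (fun p => p.1 + p.2 = s)).card ^ 2
      ≤ ∑ s ∈ A + A, A.card * ((A ×ˢ A).filter (fun p => p.1 + p.2 = s)).card := by
        refine Finset.sum_le_sum fun s hs => ?_
        rw [sq]
        exact Nat.mul_le_mul_right _ (h2 s hs)
    _ = A.card ^ 3 := by rw [← Finset.mul_sum, h3]; ring

theorem minSum_spec {k : ℕ} (hk : 3 ≤ k) {n : ℕ} (hn : 1 ≤ n) :
    ∃ A : Finset ℤ, A.card = n ∧ APF k A ∧ (A + A).card = minSum k n := by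
  obtain ⟨A, h1, h2, _⟩ := exists_small hk hn
  exact Nat.sInf_mem (s := {m | ∃ A : Finset ℤ, A.card = n ∧ APF k A ∧ (A + A).card = m})
    ⟨_, A, h1, h2, rfl⟩

theorem minSum_le {k n : ℕ} {A : Finset ℤ} (h1 : A.card = n) (h2 : APF k A) :
    minSum k n ≤ (A + A).card := Nat.sInf_le ⟨A, h1, h2, rfl⟩

theorem bdd (k n : ℕ) : BddAbove {m | ∃ A : Finset ℤ, A.card = n ∧ APF k A ∧ A.addEnergy A = m} :=
  ⟨n ^ 3, by rintro _ ⟨A, h1, _, rfl⟩; rw [← h1]; exact energy_le A⟩

theorem maxEnergy_spec {k : ℕ} (hk : 3 ≤ k) {n : ℕ} (hn : 1 ≤ n) :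
    ∃ A : Finset ℤ, A.card = n ∧ APF k A ∧ A.addEnergy A = maxEnergy k n := by
  obtain ⟨A, h1, h2, _⟩ := exists_small hk hn
  exact Nat.sSup_mem (s := {m | ∃ A : Finset ℤ, A.card = n ∧ APF k A ∧ A.addEnergy A = m})
    ⟨_, A, h1, h2, rfl⟩ (bdd k n)

theorem le_maxEnergy {k n : ℕ} {A : Finset ℤ} (h1 : A.card = n) (h2 : APF k A) :
    A.addEnergy A ≤ maxEnergy k n := le_csSup (bdd k n) ⟨A, h1, h2, rfl⟩

theorem int_tf : ∀ (n : ℕ) (x : ℤ), n ≠ 0 → n • x = 0 → x = 0 := by
  intro n x hn h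
  rw [nsmul_eq_mul] at h
  rcases mul_eq_zero.1 h with h | h
  · exact absurd (by exact_mod_cast h) hn
  · exact h

/-- the three logarithmic quantities -/
noncomputable def LR (k n : ℕ) : ℝ := Real.log ((n : ℝ) / r k n)
noncomputable def LD (k n : ℕ) : ℝ := Real.log ((minSum k n : ℝ) / n)
noncomputable def LE (k n : ℕ) : ℝ := Real.log ((n : ℝ) ^ 3 / maxEnergy k n)

theorem ineqs {k : ℕ} (hk : 3 ≤ k) {n : ℕ} (hn : 1 ≤ n) :
    0 ≤ LR k n ∧ 0 ≤ LD k n ∧ 0 ≤ LE k n ∧ LE k n ≤ LD k n ∧ LD k n ≤ 19 + 2 * LR k n ∧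
      LR k n ≤ 18000 * (1 + Real.log (1 + (1 + LD k n))) * (1 + LD k n) ∧
      LR k n ≤ 10000000 * (1 + Real.log (1 + (1 + LE k n))) * (1 + LE k n) := by
  have hn' : (0 : ℝ) < n := by exact_mod_cast hn
  have hr : (0 : ℝ) < r k n := by exact_mod_cast r_pos hk hn
  have hrn : (r k n : ℝ) ≤ n := by exact_mod_cast r_le_self k n
  obtain ⟨A, hAc, hAF, hAm⟩ := minSum_spec hk hn
  have hAne : A.Nonempty := Finset.card_pos.1 (by omega)
  have hle : n ≤ minSum k n := by
    rw [← hAm, ← hAc]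
    exact Finset.card_le_card_add_right hAne
  have hle' : (n : ℝ) ≤ minSum k n := by exact_mod_cast hle
  have hm0 : (0 : ℝ) < minSum k n := hn'.trans_le hle'
  obtain ⟨B, hBc, hBF, hBm⟩ := maxEnergy_spec hk hn
  have hBne : B.Nonempty := Finset.card_pos.1 (by omega)
  have hEle : (maxEnergy k n : ℝ) ≤ (n : ℝ) ^ 3 := by
    rw [← hBm, ← hBc]; exact_mod_cast energy_le B
  have hEA : (n : ℝ) ^ 4 ≤ minSum k n * maxEnergy k n := by
    have h1 := Finset.le_card_add_mul_addEnergy A A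
    have h2 := le_maxEnergy hAc hAF
    have h3 : n ^ 4 ≤ minSum k n * maxEnergy k n := by
      calc n ^ 4 = A.card ^ 2 * A.card ^ 2 := by rw [hAc]; ring
        _ ≤ (A + A).card * A.addEnergy A := h1
        _ ≤ minSum k n * maxEnergy k n := by rw [hAm]; exact Nat.mul_le_mul_left _ h2
    exact_mod_cast h3
  have hE0 : (0 : ℝ) < maxEnergy k n := by
    by_contra h
    push Not at h
    have h1 : (0 : ℝ) < (n : ℝ) ^ 4 := by positivity
    nlinarith
  have hLR0 : 0 ≤ LR k n := Real.log_nonneg (by rw [le_div_iff₀ hr, one_mul]; exact hrn)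
  have hLD0 : 0 ≤ LD k n := Real.log_nonneg (by rw [le_div_iff₀ hn', one_mul]; exact hle')
  have hLE0 : 0 ≤ LE k n := Real.log_nonneg (by rw [le_div_iff₀ hE0, one_mul]; exact hEle)
  have hlog2 : 0 ≤ Real.log 2 ∧ Real.log 2 ≤ 1 :=
    ⟨Real.log_nonneg (by norm_num), by have := Real.log_two_lt_d9; linarith⟩
  have hLRe : (n : ℝ) = Real.exp (LR k n) * r k n := by
    rw [LR, Real.exp_log (by positivity)]; field_simp
  refine ⟨hLR0, hLD0, hLE0, ?_, ?_, ?_, ?_⟩
  · apply Real.log_le_log (by positivity)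
    rw [div_le_div_iff₀ hE0 hn']
    calc (n : ℝ) ^ 3 * n = (n : ℝ) ^ 4 := by ring
      _ ≤ _ := hEA
  · obtain ⟨S, hSc, hSF, hS⟩ := exists_small hk hn
    have h1 : (minSum k n : ℝ) ≤ 18 * Real.exp 16 * ((n : ℝ) / r k n) ^ 2 * n :=
      (by exact_mod_cast minSum_le hSc hSF : (minSum k n : ℝ) ≤ (S + S).card).trans hS
    have h2 : (minSum k n : ℝ) / n ≤ Real.exp (19 + 2 * LR k n) := by
      rw [div_le_iff₀ hn']
      refine h1.trans ?_
      gcongr
      have h3 : ((n : ℝ) / r k n) ^ 2 = Real.exp (2 * LR k n) := by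
        rw [LR, two_mul, Real.exp_add, Real.exp_log (by positivity)]; ring
      rw [h3, Real.exp_add]
      gcongr
      have h4 : (18 : ℝ) ≤ Real.exp 3 := by
        have := Real.exp_one_gt_d9
        calc (18 : ℝ) ≤ (2.7 : ℝ) ^ 3 := by norm_num
          _ ≤ Real.exp 1 ^ 3 := by gcongr; linarith
          _ = Real.exp 3 := by rw [← Real.exp_nat_mul]; norm_num
      calc 18 * Real.exp 16 ≤ Real.exp 3 * Real.exp 16 := by gcongr
        _ = Real.exp 19 := by rw [← Real.exp_add]; norm_num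
    calc LD k n ≤ Real.log (Real.exp (19 + 2 * LR k n)) := Real.log_le_log (by positivity) h2
      _ = _ := Real.log_exp _
  · have hK : ((A + A).card : ℝ) ≤ ((minSum k n : ℝ) / n) * A.card := by
      rw [hAm, hAc]; field_simp; exact le_refl _
    have h1 := rel int_tf hk hAne hK (Finset.Subset.refl A) hAF
    rw [hAc] at h1
    have h2 : Real.log (2 * ((minSum k n : ℝ) / n)) = Real.log 2 + LD k n := by
      rw [Real.log_mul (by norm_num) (by positivity), LD]
    rw [h2, Real.rpow_def_of_pos (by positivity), h2] at h1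
    have h3 : LR k n ≤ (Real.log 2 + LD k n) *
        (18000 * (1 + Real.log (1 + (Real.log 2 + LD k n)))) := by
      have h4 : (n : ℝ) / r k n ≤ Real.exp ((Real.log 2 + LD k n) *
        (18000 * (1 + Real.log (1 + (Real.log 2 + LD k n))))) := by
        rw [div_le_iff₀ hr]; exact h1
      calc LR k n ≤ Real.log (Real.exp ((Real.log 2 + LD k n) *
        (18000 * (1 + Real.log (1 + (Real.log 2 + LD k n)))))) :=
            Real.log_le_log (by positivity) h4
        _ = _ := Real.log_exp _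
    refine h3.trans ?_
    have h5 : 0 ≤ Real.log (1 + (Real.log 2 + LD k n)) := Real.log_nonneg (by linarith [hlog2.1])
    have h6 : Real.log (1 + (Real.log 2 + LD k n)) ≤ Real.log (1 + (1 + LD k n)) :=
      Real.log_le_log (by linarith [hlog2.1]) (by linarith [hlog2.2])
    calc (Real.log 2 + LD k n) * (18000 * (1 + Real.log (1 + (Real.log 2 + LD k n))))
        ≤ (1 + LD k n) * (18000 * (1 + Real.log (1 + (1 + LD k n)))) := by
          gcongr
          exact hlog2.2
      _ = _ := by ring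
  · have hK1 : (1 : ℝ) ≤ (n : ℝ) ^ 3 / maxEnergy k n := by
      rw [le_div_iff₀ hE0, one_mul]; exact hEle
    have hK : (B.card : ℝ) ^ 3 ≤ ((n : ℝ) ^ 3 / maxEnergy k n) * (B.addEnergy B : ℕ) := by
      rw [hBm, hBc]; field_simp; exact le_refl _
    have h1 := energy int_tf hk hK1 hBne hK hBF
    rw [hBc] at h1
    have h2 : Real.log (2 * ((n : ℝ) ^ 3 / maxEnergy k n)) = Real.log 2 + LE k n := by
      rw [Real.log_mul (by norm_num) (by positivity), LE]
    rw [h2, Real.rpow_def_of_pos (by positivity), h2] at h1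
    have h3 : LR k n ≤ (Real.log 2 + LE k n) *
        (10000000 * (1 + Real.log (1 + (Real.log 2 + LE k n)))) := by
      have h4 : (n : ℝ) / r k n ≤ Real.exp ((Real.log 2 + LE k n) *
        (10000000 * (1 + Real.log (1 + (Real.log 2 + LE k n))))) := by
        rw [div_le_iff₀ hr]; exact h1
      calc LR k n ≤ Real.log (Real.exp ((Real.log 2 + LE k n) *
        (10000000 * (1 + Real.log (1 + (Real.log 2 + LE k n)))))) :=
            Real.log_le_log (by positivity) h4
        _ = _ := Real.log_exp _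
    refine h3.trans ?_
    have h5 : 0 ≤ Real.log (1 + (Real.log 2 + LE k n)) := Real.log_nonneg (by linarith [hlog2.1])
    have h6 : Real.log (1 + (Real.log 2 + LE k n)) ≤ Real.log (1 + (1 + LE k n)) :=
      Real.log_le_log (by linarith [hlog2.1]) (by linarith [hlog2.2])
    calc (Real.log 2 + LE k n) * (10000000 * (1 + Real.log (1 + (Real.log 2 + LE k n))))
        ≤ (1 + LE k n) * (10000000 * (1 + Real.log (1 + (1 + LE k n)))) := by
          gcongr
          exact hlog2.2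
      _ = _ := by ring

/-! ### exponents -/

/-- `x n ≤ (log n) ^ (γ + o(1))` -/
def Up (x : ℕ → ℝ) (γ : ℝ) : Prop :=
  ∀ ε : ℝ, 0 < ε → ∀ᶠ n : ℕ in atTop, x n ≤ Real.log n ^ (γ + ε)

/-- `x n ≥ (log n) ^ (γ - o(1))` -/
def Lo (x : ℕ → ℝ) (γ : ℝ) : Prop :=
  ∀ ε : ℝ, 0 < ε → ∀ᶠ n : ℕ in atTop, Real.log n ^ (γ - ε) ≤ x n

theorem ev_log (M δ : ℝ) (hδ : 0 < δ) :
    ∀ᶠ n : ℕ in atTop, 1 ≤ n ∧ 1 ≤ Real.log n ∧ M ≤ Real.log n ^ δ := by
  have h1 : Tendsto (fun n : ℕ => Real.log (n : ℝ)) atTop atTop :=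
    Real.tendsto_log_atTop.comp tendsto_natCast_atTop_atTop
  have h2 : Tendsto (fun n : ℕ => Real.log (n : ℝ) ^ δ) atTop atTop :=
    (tendsto_rpow_atTop hδ).comp h1
  exact (eventually_ge_atTop 1).and ((h1.eventually_ge_atTop 1).and (h2.eventually_ge_atTop M))

theorem Up.of_small {x : ℕ → ℝ} {γ : ℝ}
    (h : ∀ ε : ℝ, 0 < ε → ε ≤ 1 → ∀ᶠ n : ℕ in atTop, x n ≤ Real.log n ^ (γ + ε)) : Up x γ := by
  intro ε hε
  filter_upwards [h (min ε 1) (lt_min hε one_pos) (min_le_right _ _), ev_log 1 1 one_pos]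
    with n h1 h2
  refine h1.trans (Real.rpow_le_rpow_of_exponent_le h2.2.1 ?_)
  linarith [min_le_left ε 1]

theorem Lo.of_small {x : ℕ → ℝ} {γ : ℝ} (hγ : 0 < γ)
    (h : ∀ ε : ℝ, 0 < ε → ε ≤ 1 → ε < γ → ∀ᶠ n : ℕ in atTop, Real.log n ^ (γ - ε) ≤ x n) :
    Lo x γ := by
  intro ε hε
  have hm : 0 < min ε (min 1 (γ / 2)) := lt_min hε (lt_min one_pos (by positivity))
  have hm1 : min ε (min 1 (γ / 2)) ≤ 1 := (min_le_right _ _).trans (min_le_left _ _)
  have hm2 : min ε (min 1 (γ / 2)) < γ :=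
    lt_of_le_of_lt ((min_le_right _ _).trans (min_le_right _ _)) (by linarith)
  filter_upwards [h _ hm hm1 hm2, ev_log 1 1 one_pos] with n h1 h2
  refine le_trans (Real.rpow_le_rpow_of_exponent_le h2.2.1 ?_) h1
  linarith [min_le_left ε (min 1 (γ / 2))]

/-- `1 + log (1 + s) ≤ (1 + 2 / η) s ^ η` -/
theorem log_le_pow {s η : ℝ} (hs : 1 ≤ s) (hη : 0 < η) (hη1 : η ≤ 1) :
    1 + Real.log (1 + s) ≤ (1 + 2 / η) * s ^ η := by
  have h1 : Real.log (1 + s) ≤ (1 + s) ^ η / η := Real.log_le_rpow_div (by linarith) hη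
  have h2 : (1 + s) ^ η ≤ 2 * s ^ η := by
    calc (1 + s) ^ η ≤ (2 * s) ^ η := by gcongr; linarith
      _ = 2 ^ η * s ^ η := Real.mul_rpow (by norm_num) (by linarith)
      _ ≤ 2 ^ (1 : ℝ) * s ^ η := by gcongr; norm_num
      _ = 2 * s ^ η := by rw [Real.rpow_one]
  have h3 : 1 ≤ s ^ η := Real.one_le_rpow hs hη.le
  calc 1 + Real.log (1 + s) ≤ s ^ η + (2 * s ^ η) / η := by gcongr; exact h1.trans (by gcongr)
    _ = _ := by ring

theorem pow_bound {c u a η : ℝ} {x y : ℝ} (hc : 0 ≤ c) (hη : 0 < η) (hη1 : η ≤ 1) (hy : 0 ≤ y)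
    (hu : 1 ≤ u) (ha : 0 ≤ a) (hya : y ≤ u ^ a)
    (h2 : x ≤ c * (1 + Real.log (1 + (1 + y))) * (1 + y)) :
    x ≤ (c * (1 + 2 / η) * 4) * u ^ (a * (1 + η)) := by
  have hs : 1 ≤ 1 + y := by linarith
  have h3 := log_le_pow hs hη hη1
  have h4 : 1 + y ≤ 2 * u ^ a := by
    have := Real.one_le_rpow hu ha
    linarith
  have hu0 : 0 < u := by linarith
  calc x ≤ c * (1 + Real.log (1 + (1 + y))) * (1 + y) := h2
    _ ≤ c * ((1 + 2 / η) * (1 + y) ^ η) * (1 + y) := by gcongr
    _ = c * (1 + 2 / η) * (1 + y) ^ (1 + η) := by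
        rw [Real.rpow_add (by linarith), Real.rpow_one]; ring
    _ ≤ c * (1 + 2 / η) * (2 * u ^ a) ^ (1 + η) := by gcongr
    _ = c * (1 + 2 / η) * 2 ^ (1 + η) * u ^ (a * (1 + η)) := by
        rw [Real.mul_rpow (by norm_num) (by positivity), ← Real.rpow_mul hu0.le]; ring
    _ ≤ (c * (1 + 2 / η) * 4) * u ^ (a * (1 + η)) := by
        have h5 : (2 : ℝ) ^ (1 + η) ≤ 4 := by
          calc (2 : ℝ) ^ (1 + η) ≤ 2 ^ (2 : ℝ) := by gcongr <;> linarith
            _ = 4 := by norm_num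
        gcongr

theorem exps {x y : ℕ → ℝ} {c : ℝ} (hc : 1 ≤ c) (hy : ∀ n, 1 ≤ n → 0 ≤ y n)
    (h1 : ∀ n, 1 ≤ n → y n ≤ c * (1 + x n))
    (h2 : ∀ n, 1 ≤ n → x n ≤ c * (1 + Real.log (1 + (1 + y n))) * (1 + y n)) :
    (∀ γ : ℝ, 0 ≤ γ → (Up x γ ↔ Up y γ)) ∧ (∀ γ : ℝ, 0 < γ → (Lo x γ ↔ Lo y γ)) := by
  have hc0 : 0 ≤ c := by linarith
  refine ⟨fun γ hγ => ⟨fun h => ?_, fun h => ?_⟩, fun γ hγ => ⟨fun h => ?_, fun h => ?_⟩⟩
  · apply Up.of_small
    intro ε hε hε1
    filter_upwards [h (ε / 2) (by positivity), ev_log (2 * c) (ε / 2) (by positivity)]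
      with n h3 ⟨hn, hu, hM⟩
    have hu0 : 0 < Real.log n := by linarith
    have h4 : 1 ≤ Real.log n ^ (γ + ε / 2) := Real.one_le_rpow hu (by positivity)
    calc y n ≤ c * (1 + x n) := h1 n hn
      _ ≤ c * (Real.log n ^ (γ + ε / 2) + Real.log n ^ (γ + ε / 2)) := by gcongr
      _ = 2 * c * Real.log n ^ (γ + ε / 2) := by ring
      _ ≤ Real.log n ^ (ε / 2) * Real.log n ^ (γ + ε / 2) := by gcongr
      _ = Real.log n ^ (γ + ε) := by rw [← Real.rpow_add hu0]; congr 1; ring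
  · apply Up.of_small
    intro ε hε hε1
    set η := ε / (4 * (γ + 1)) with hη
    have hη0 : 0 < η := by positivity
    have hηγ : η * (γ + 1) = ε / 4 := by rw [hη]; field_simp
    have hη1 : η ≤ 1 := by nlinarith
    filter_upwards [h (ε / 4) (by positivity),
      ev_log (c * (1 + 2 / η) * 4) (ε / 2) (by positivity)] with n h3 ⟨hn, hu, hM⟩
    have hu0 : 0 < Real.log n := by linarith
    have h5 := pow_bound hc0 hη0 hη1 (hy n hn) hu (show 0 ≤ γ + ε / 4 by positivity) h3 (h2 n hn)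
    calc x n ≤ (c * (1 + 2 / η) * 4) * Real.log n ^ ((γ + ε / 4) * (1 + η)) := h5
      _ ≤ Real.log n ^ (ε / 2) * Real.log n ^ (γ + ε / 2) := by
          gcongr
          nlinarith
      _ = Real.log n ^ (γ + ε) := by rw [← Real.rpow_add hu0]; congr 1; ring
  · apply Lo.of_small hγ
    intro ε hε hε1 hεγ
    set η := ε / (4 * (γ + 1)) with hη
    have hη0 : 0 < η := by positivity
    have hηγ : η * (γ + 1) = ε / 4 := by rw [hη]; field_simp
    have hη1 : η ≤ 1 := by nlinarith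
    filter_upwards [h (ε / 4) (by positivity),
      ev_log (c * (1 + 2 / η) * 4 + 1) (ε / 2) (by positivity)] with n h3 ⟨hn, hu, hM⟩
    by_contra hlt
    push Not at hlt
    have hu0 : 0 < Real.log n := by linarith
    have h5 := pow_bound hc0 hη0 hη1 (hy n hn) hu (show 0 ≤ γ - ε by linarith) hlt.le (h2 n hn)
    have hpos : 0 < Real.log n ^ (γ - ε * (3 / 4)) := Real.rpow_pos_of_pos hu0 _
    have h6 : x n < Real.log n ^ (γ - ε / 4) := by
      calc x n ≤ (c * (1 + 2 / η) * 4) * Real.log n ^ ((γ - ε) * (1 + η)) := h5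
        _ ≤ (c * (1 + 2 / η) * 4) * Real.log n ^ (γ - ε * (3 / 4)) := by
            gcongr
            nlinarith
        _ < Real.log n ^ (ε / 2) * Real.log n ^ (γ - ε * (3 / 4)) := by
            apply mul_lt_mul_of_pos_right _ hpos
            linarith
        _ = Real.log n ^ (γ - ε / 4) := by rw [← Real.rpow_add hu0]; congr 1; ring
    linarith
  · apply Lo.of_small hγ
    intro ε hε hε1 hεγ
    filter_upwards [h (ε / 2) (by positivity), ev_log (2 * c) (ε / 2) (by positivity)]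
      with n h3 ⟨hn, hu, hM⟩
    have hu0 : 0 < Real.log n := by linarith
    have h4 : 1 ≤ Real.log n ^ (γ - ε) := Real.one_le_rpow hu (by linarith)
    have h5 := h1 n hn
    have h6 : 2 * c * Real.log n ^ (γ - ε) ≤ c * (1 + x n) := by
      calc 2 * c * Real.log n ^ (γ - ε) ≤ Real.log n ^ (ε / 2) * Real.log n ^ (γ - ε) := by gcongr
        _ = Real.log n ^ (γ - ε / 2) := by rw [← Real.rpow_add hu0]; congr 1; ring
        _ ≤ y n := h3
        _ ≤ _ := h5
    have h7 : 2 * Real.log n ^ (γ - ε) ≤ 1 + x n := by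
      have h8 : c * (2 * Real.log n ^ (γ - ε)) ≤ c * (1 + x n) := by linarith
      exact le_of_mul_le_mul_left h8 (by linarith)
    linarith

end H24.DB
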